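import Mathlib
import Pool.Agent.KS6_16.VJ.Defs3
import Pool.Agent.KS6_77.VJ.Val

/-!
# MP_e44225_nt, module U1: constant field extensions are unramified
-/

namespace Pool.Agent.KS6_12.VJ

open Polynomial KS6_16.VJ Pool.Agent.KS6_77.VJ

/-- Modulo a squarefree polynomial every polynomial is von Neumann regular. -/
lemma regular_of_squarefree {κ : Type*} [Field κ] {q : κ[X]} (hq : Squarefree q) (h : κ[X]) :
    ∃ t g : κ[X], h = t * h ^ 2 + q * g := by
  classical
  have hd1 : EuclideanDomain.gcd (h ^ 2) q ∣ q := EuclideanDomain.gcd_dvd_right _ _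
  have hd2 : EuclideanDomain.gcd (h ^ 2) q ∣ h ^ 2 := EuclideanDomain.gcd_dvd_left _ _
  have hsq : Squarefree (EuclideanDomain.gcd (h ^ 2) q) := hq.squarefree_of_dvd hd1
  obtain ⟨c, hc⟩ := (hsq.dvd_pow_iff_dvd two_ne_zero).mp hd2
  have hb := EuclideanDomain.gcd_eq_gcd_ab (h ^ 2) q
  refine ⟨EuclideanDomain.gcdA (h ^ 2) q * c, EuclideanDomain.gcdB (h ^ 2) q * c, ?_⟩
  calc h = EuclideanDomain.gcd (h ^ 2) q * c := hc
    _ = (h ^ 2 * EuclideanDomain.gcdA (h ^ 2) q + q * EuclideanDomain.gcdB (h ^ 2) q) * c := by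
        rw [← hb]
    _ = _ := by ring

/-- **U1.** -/
theorem stU1 : StU1 := by
  intro k K F _ _ _ _ _ _ _ _ _ hK e he hgen O hO
  obtain ⟨f, hf, hfin⟩ := hK
  have hcf : CF k K := CF.of_gen f hf hfin
  have hk : ∀ a : k, algebraMap K F (algebraMap k K a) = algebraMap k F a :=
    fun a => (IsScalarTower.algebraMap_apply k K F a).symm
  have hP : IsPlace k (dn K O) := dn_place hk hO
  obtain ⟨z, hz0, hz, hdec⟩ := exists_unif hcf hP
  have hz1 : (dn K O).valuation z < 1 := unif_lt_one hz
  have hzO : O.valuation (algebraMap K F z) < 1 := (dn_lt_one_iff O z).mp hz1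
  have hzF0 : algebraMap K F z ≠ 0 := by simpa using hz0
  have hzpos : 0 < O.valuation (algebraMap K F z) := val_pos hzF0
  have hzA : z ∈ dn K O := val_le_one_iff.mp hz1.le
  let z' : dn K O := ⟨z, hzA⟩
  -- the constants
  let ι : k →+* dn K O := (algebraMap k K).codRestrict (dn K O).toSubring hP.1
  let ρ : dn K O →+* F := (algebraMap K F).comp (dn K O).subtype
  let ev : (dn K O)[X] →+* F := eval₂RingHom ρ e
  have heO : e ∈ O := mem_of_isIntegral O hO.1 he.isIntegral
  have hevO : ∀ h : (dn K O)[X], O.valuation (ev h) ≤ 1 := by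
    intro h
    rw [val_le_one_iff]
    change eval₂ ρ e h ∈ O
    rw [eval₂_eq_sum]
    refine O.toSubring.sum_mem fun i _ => ?_
    exact O.mul_mem _ _ (h.coeff i).2 (O.pow_mem heO i)
  -- the polynomial
  let p : (dn K O)[X] := (minpoly k e).map ι
  have hevp : ev p = 0 := by
    change eval₂ ρ e ((minpoly k e).map ι) = 0
    rw [eval₂_map]
    have h1 : ρ.comp ι = algebraMap k F := by
      ext a
      exact hk a
    rw [h1]
    exact minpoly.aeval k e
  have hsep : Squarefree (p.map (IsLocalRing.residue (dn K O))) := by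
    have h1 : (minpoly k e).Separable := (minpoly.irreducible he.isIntegral).separable
    rw [Polynomial.map_map]
    exact (h1.map).squarefree
  have hstep : ∀ h : (dn K O)[X], ∃ t r : (dn K O)[X],
      ev h = ev t * ev h ^ 2 + algebraMap K F z * ev r := by
    intro h
    obtain ⟨t₁, g₁, h1⟩ := regular_of_squarefree hsep (h.map (IsLocalRing.residue (dn K O)))
    obtain ⟨t, rfl⟩ := Polynomial.map_surjective _ IsLocalRing.residue_surjective t₁
    obtain ⟨g, rfl⟩ := Polynomial.map_surjective _ IsLocalRing.residue_surjective g₁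
    have h2 : (h - (t * h ^ 2 + p * g)).map (IsLocalRing.residue (dn K O)) = 0 := by
      rw [Polynomial.map_sub, Polynomial.map_add, Polynomial.map_mul, Polynomial.map_mul,
        Polynomial.map_pow, ← h1, sub_self]
    have h3 : C z' ∣ h - (t * h ^ 2 + p * g) := by
      rw [C_dvd_iff_dvd_coeff]
      intro i
      have h4 : IsLocalRing.residue (dn K O) ((h - (t * h ^ 2 + p * g)).coeff i) = 0 := by
        rw [← coeff_map, h2, coeff_zero]
      rw [IsLocalRing.residue_eq_zero_iff, ValuationSubring.valuation_lt_one_iff] at h4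
      obtain ⟨w, hw, hw'⟩ := unif_div_mem hz h4
      exact ⟨⟨w, hw⟩, Subtype.ext hw'⟩
    obtain ⟨r, hr⟩ := h3
    refine ⟨t, r, ?_⟩
    have h5 := congrArg ev hr
    rw [map_sub, map_add, map_mul, map_mul, map_pow, hevp, zero_mul, add_zero, map_mul] at h5
    have h6 : ev (C z') = algebraMap K F z := by
      change eval₂ ρ e (C z') = _
      rw [eval₂_C]
      rfl
    rw [h6] at h5
    linear_combination h5
  have hind : ∀ (m : ℕ) (h : (dn K O)[X]),
      O.valuation (ev h) < O.valuation (algebraMap K F z) ^ m →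
      O.valuation (ev h) ≤ O.valuation (algebraMap K F z) ^ (m + 1) := by
    intro m
    induction m with
    | zero =>
      intro h hh
      rw [pow_zero] at hh
      obtain ⟨t, r, htr⟩ := hstep h
      have h1 : ev h * (1 - ev t * ev h) = algebraMap K F z * ev r := by
        linear_combination htr
      have h2 : O.valuation (1 - ev t * ev h) = 1 := by
        have h3 : O.valuation (ev t * ev h) < 1 := by
          rw [map_mul, mul_comm]
          exact mul_lt_one_of_lt_of_le hh (hevO t)
        exact Valuation.map_one_sub_of_lt _ h3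
      have h4 := congrArg O.valuation h1
      rw [map_mul, h2, mul_one, map_mul] at h4
      rw [h4, zero_add, pow_one]
      exact mul_le_of_le_one_right' (hevO r)
    | succ m ih =>
      intro h hh
      obtain ⟨t, r, htr⟩ := hstep h
      have hh1 : O.valuation (ev h) < 1 := lt_of_lt_of_le hh (pow_le_one₀ zero_le hzO.le)
      have h1 : ev h * (1 - ev t * ev h) = algebraMap K F z * ev r := by
        linear_combination htr
      have h2 : O.valuation (1 - ev t * ev h) = 1 := by
        have h3 : O.valuation (ev t * ev h) < 1 := by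
          rw [map_mul, mul_comm]
          exact mul_lt_one_of_lt_of_le hh1 (hevO t)
        exact Valuation.map_one_sub_of_lt _ h3
      have h4 := congrArg O.valuation h1
      rw [map_mul, h2, mul_one, map_mul] at h4
      rw [h4, pow_succ'] at hh
      have h5 := ih r (lt_of_mul_lt_mul_left' hh)
      rw [h4, pow_succ' _ (m + 1)]
      exact mul_le_mul_right h5 _
  -- every element is `ev h / z ^ m`
  have hadj : Algebra.adjoin K {e} = ⊤ := by
    have h1 : IsAlgebraic K e := Algebra.IsAlgebraic.isAlgebraic e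
    rw [← IntermediateField.adjoin_simple_toSubalgebra_of_isAlgebraic h1, hgen,
      IntermediateField.top_toSubalgebra]
  have hC : ∀ c : dn K O, ev (C c) = algebraMap K F c := by
    intro c
    change eval₂ ρ e (C c) = _
    rw [eval₂_C]
    rfl
  have hall : ∀ y : F, ∃ (m : ℕ) (h : (dn K O)[X]), y * algebraMap K F z ^ m = ev h := by
    intro y
    have hy : y ∈ Algebra.adjoin K {e} := by rw [hadj]; exact Algebra.mem_top
    induction hy using Algebra.adjoin_induction with
    | mem x hx =>
      rw [Set.mem_singleton_iff] at hx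
      refine ⟨0, X, ?_⟩
      change _ = eval₂ ρ e X
      rw [eval₂_X, hx, pow_zero, mul_one]
    | algebraMap c =>
      by_cases hc : c = 0
      · exact ⟨0, 0, by rw [hc]; simp⟩
      · obtain ⟨n, u, hu, hcu⟩ := hdec c hc
        have h1 : c * z ^ n.natAbs ∈ dn K O := by
          rw [hcu, mul_assoc, ← zpow_natCast, ← zpow_add₀ hz0]
          refine (dn K O).mul_mem _ _ (val_le_one_iff.mp hu.le) ?_
          obtain ⟨j, hj⟩ : ∃ j : ℕ, n + (n.natAbs : ℤ) = j := by
            refine ⟨(n + (n.natAbs : ℤ)).toNat, ?_⟩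
            rw [Int.toNat_of_nonneg]
            omega
          rw [hj, zpow_natCast]
          exact (dn K O).pow_mem hzA j
        refine ⟨n.natAbs, C ⟨_, h1⟩, ?_⟩
        rw [hC, map_mul, map_pow]
    | add x y _ _ hx hy =>
      obtain ⟨m₁, h₁, e₁⟩ := hx
      obtain ⟨m₂, h₂, e₂⟩ := hy
      refine ⟨m₁ + m₂, h₁ * C z' ^ m₂ + h₂ * C z' ^ m₁, ?_⟩
      rw [map_add, map_mul, map_mul, map_pow, map_pow, hC, ← e₁, ← e₂]
      change _ = x * algebraMap K F z ^ m₁ * algebraMap K F z ^ m₂ +
        y * algebraMap K F z ^ m₂ * algebraMap K F z ^ m₁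
      ring
    | mul x y _ _ hx hy =>
      obtain ⟨m₁, h₁, e₁⟩ := hx
      obtain ⟨m₂, h₂, e₂⟩ := hy
      refine ⟨m₁ + m₂, h₁ * h₂, ?_⟩
      rw [map_mul, ← e₁, ← e₂]
      ring
  refine ⟨z, fun y => ⟨fun hy => ?_, fun hy => lt_of_le_of_lt hy hzO⟩⟩
  obtain ⟨m, h, hh⟩ := hall y
  have hm : 0 < O.valuation (algebraMap K F z) ^ m := pow_pos hzpos m
  have h1 : O.valuation (ev h) = O.valuation y * O.valuation (algebraMap K F z) ^ m := by
    rw [← hh, map_mul, map_pow]
  have h2 : O.valuation (ev h) < O.valuation (algebraMap K F z) ^ m := by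
    rw [h1]
    exact mul_lt_of_lt_one_left hm hy
  have h3 := hind m h h2
  rw [h1, pow_succ'] at h3
  exact le_of_mul_le_mul_right h3 hm

end Pool.Agent.KS6_12.VJ
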