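import Mathlib
import Pool.Agent.KS6_16.VJ.Defs3
import Pool.Agent.KS6_77.VJ.Val
import Pool.Agent.KS6_12.VJ.U1

/-!
# MP_e44225_nt, module U2: adjoining the square root of a function with even orders
-/

namespace Pool.Agent.KS6_12.VJ

open Polynomial KS6_16.VJ Pool.Agent.KS6_77.VJ

section gen

variable {k K F : Type} [Field k] [CharZero k] [Field K] [Field F] [Algebra k K]
  [Algebra K F] [Algebra k F] [IsScalarTower k K F] [FiniteDimensional K F]

/-- An extension generated by a root of a polynomial which is integral at the place below and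
squarefree modulo the maximal ideal is unramified. -/
theorem unr_of_squarefree (hcf : CF k K) {e : F} (hgen : IntermediateField.adjoin K {e} = ⊤)
    {O : ValuationSubring F} (hO : IsPlace k O) (heO : e ∈ O) (p : (dn K O)[X])
    (hevp : eval₂ ((algebraMap K F).comp (dn K O).subtype) e p = 0)
    (hsep : Squarefree (p.map (IsLocalRing.residue (dn K O)))) :
    ∃ z : K, Unif O (algebraMap K F z) := by
  have hk : ∀ a : k, algebraMap K F (algebraMap k K a) = algebraMap k F a :=
    fun a => (IsScalarTower.algebraMap_apply k K F a).symm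
  have hP : IsPlace k (dn K O) := dn_place hk hO
  obtain ⟨z, hz0, hz, hdec⟩ := exists_unif hcf hP
  have hz1 : (dn K O).valuation z < 1 := unif_lt_one hz
  have hzO : O.valuation (algebraMap K F z) < 1 := (dn_lt_one_iff O z).mp hz1
  have hzF0 : algebraMap K F z ≠ 0 := by simpa using hz0
  have hzpos : 0 < O.valuation (algebraMap K F z) := val_pos hzF0
  have hzA : z ∈ dn K O := val_le_one_iff.mp hz1.le
  let z' : dn K O := ⟨z, hzA⟩
  let ρ : dn K O →+* F := (algebraMap K F).comp (dn K O).subtype
  let ev : (dn K O)[X] →+* F := eval₂RingHom ρ e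
  have hevO : ∀ h : (dn K O)[X], O.valuation (ev h) ≤ 1 := by
    intro h
    rw [val_le_one_iff]
    change eval₂ ρ e h ∈ O
    rw [eval₂_eq_sum]
    refine O.toSubring.sum_mem fun i _ => ?_
    exact O.mul_mem _ _ (h.coeff i).2 (O.pow_mem heO i)
  have hevp' : ev p = 0 := hevp
  have hstep : ∀ h : (dn K O)[X], ∃ t r : (dn K O)[X],
      ev h = ev t * ev h ^ 2 + algebraMap K F z * ev r := by
    intro h
    obtain ⟨t₁, g₁, h1⟩ := regular_of_squarefree hsep (h.map (IsLocalRing.residue (dn K O)))
    obtain ⟨t, rfl⟩ := Polynomial.map_surjective _ IsLocalRing.residue_surjective t₁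
    obtain ⟨g, rfl⟩ := Polynomial.map_surjective _ IsLocalRing.residue_surjective g₁
    have h2 : (h - (t * h ^ 2 + p * g)).map (IsLocalRing.residue (dn K O)) = 0 := by
      rw [Polynomial.map_sub, Polynomial.map_add, Polynomial.map_mul, Polynomial.map_mul,
        Polynomial.map_pow, ← h1, sub_self]
    have h3 : C z' ∣ h - (t * h ^ 2 + p * g) := by
      rw [C_dvd_iff_dvd_coeff]
      intro i
      have h4 : IsLocalRing.residue (dn K O) ((h - (t * h ^ 2 + p * g)).coeff i) = 0 := by
        rw [← coeff_map, h2, coeff_zero]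
      rw [IsLocalRing.residue_eq_zero_iff, ValuationSubring.valuation_lt_one_iff] at h4
      obtain ⟨w, hw, hw'⟩ := unif_div_mem hz h4
      exact ⟨⟨w, hw⟩, Subtype.ext hw'⟩
    obtain ⟨r, hr⟩ := h3
    refine ⟨t, r, ?_⟩
    have h5 := congrArg ev hr
    rw [map_sub, map_add, map_mul, map_mul, map_pow, hevp', zero_mul, add_zero, map_mul] at h5
    have h6 : ev (C z') = algebraMap K F z := by
      change eval₂ ρ e (C z') = _
      rw [eval₂_C]
      rfl
    rw [h6] at h5
    linear_combination h5
  have hred : ∀ h : (dn K O)[X], O.valuation (ev h) < 1 → ∃ r : (dn K O)[X],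
      O.valuation (ev h) = O.valuation (algebraMap K F z) * O.valuation (ev r) := by
    intro h hh
    obtain ⟨t, r, htr⟩ := hstep h
    have h1 : ev h * (1 - ev t * ev h) = algebraMap K F z * ev r := by
      linear_combination htr
    have h2 : O.valuation (1 - ev t * ev h) = 1 := by
      have h3 : O.valuation (ev t * ev h) < 1 := by
        rw [map_mul, mul_comm]
        exact mul_lt_one_of_lt_of_le hh (hevO t)
      exact Valuation.map_one_sub_of_lt _ h3
    have h4 := congrArg O.valuation h1
    rw [map_mul, h2, mul_one, map_mul] at h4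
    exact ⟨r, h4⟩
  have hind : ∀ (m : ℕ) (h : (dn K O)[X]),
      O.valuation (ev h) < O.valuation (algebraMap K F z) ^ m →
      O.valuation (ev h) ≤ O.valuation (algebraMap K F z) ^ (m + 1) := by
    intro m
    induction m with
    | zero =>
      intro h hh
      rw [pow_zero] at hh
      obtain ⟨r, h4⟩ := hred h hh
      rw [h4, zero_add, pow_one]
      exact mul_le_of_le_one_right' (hevO r)
    | succ m ih =>
      intro h hh
      obtain ⟨r, h4⟩ := hred h (lt_of_lt_of_le hh (pow_le_one₀ zero_le hzO.le))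
      rw [h4, pow_succ'] at hh
      have h5 := ih r (lt_of_mul_lt_mul_left' hh)
      rw [h4, pow_succ' _ (m + 1)]
      exact mul_le_mul_right h5 _
  have hadj : Algebra.adjoin K {e} = ⊤ := by
    have h1 : IsAlgebraic K e := Algebra.IsAlgebraic.isAlgebraic e
    rw [← IntermediateField.adjoin_simple_toSubalgebra_of_isAlgebraic h1, hgen,
      IntermediateField.top_toSubalgebra]
  have hC : ∀ c : dn K O, ev (C c) = algebraMap K F c := by
    intro c
    change eval₂ ρ e (C c) = _
    rw [eval₂_C]
    rfl
  have hall : ∀ y : F, ∃ (m : ℕ) (h : (dn K O)[X]), y * algebraMap K F z ^ m = ev h := by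
    intro y
    have hy : y ∈ Algebra.adjoin K {e} := by rw [hadj]; exact Algebra.mem_top
    induction hy using Algebra.adjoin_induction with
    | mem x hx =>
      rw [Set.mem_singleton_iff] at hx
      refine ⟨0, X, ?_⟩
      change _ = eval₂ ρ e X
      rw [eval₂_X, hx, pow_zero, mul_one]
    | algebraMap c =>
      by_cases hc : c = 0
      · exact ⟨0, 0, by rw [hc]; simp⟩
      · obtain ⟨n, u, hu, hcu⟩ := hdec c hc
        have h1 : c * z ^ n.natAbs ∈ dn K O := by
          rw [hcu, mul_assoc, ← zpow_natCast, ← zpow_add₀ hz0]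
          refine (dn K O).mul_mem _ _ (val_le_one_iff.mp hu.le) ?_
          obtain ⟨j, hj⟩ : ∃ j : ℕ, n + (n.natAbs : ℤ) = j := by
            refine ⟨(n + (n.natAbs : ℤ)).toNat, ?_⟩
            rw [Int.toNat_of_nonneg]
            omega
          rw [hj, zpow_natCast]
          exact (dn K O).pow_mem hzA j
        refine ⟨n.natAbs, C ⟨_, h1⟩, ?_⟩
        rw [hC, map_mul, map_pow]
    | add x y _ _ hx hy =>
      obtain ⟨m₁, h₁, e₁⟩ := hx
      obtain ⟨m₂, h₂, e₂⟩ := hy
      refine ⟨m₁ + m₂, h₁ * C z' ^ m₂ + h₂ * C z' ^ m₁, ?_⟩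
      rw [map_add, map_mul, map_mul, map_pow, map_pow, hC, ← e₁, ← e₂]
      change _ = x * algebraMap K F z ^ m₁ * algebraMap K F z ^ m₂ +
        y * algebraMap K F z ^ m₂ * algebraMap K F z ^ m₁
      ring
    | mul x y _ _ hx hy =>
      obtain ⟨m₁, h₁, e₁⟩ := hx
      obtain ⟨m₂, h₂, e₂⟩ := hy
      refine ⟨m₁ + m₂, h₁ * h₂, ?_⟩
      rw [map_mul, ← e₁, ← e₂]
      ring
  refine ⟨z, fun y => ⟨fun hy => ?_, fun hy => lt_of_le_of_lt hy hzO⟩⟩
  obtain ⟨m, h, hh⟩ := hall y
  have hm : 0 < O.valuation (algebraMap K F z) ^ m := pow_pos hzpos m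
  have h1 : O.valuation (ev h) = O.valuation y * O.valuation (algebraMap K F z) ^ m := by
    rw [← hh, map_mul, map_pow]
  have h2 : O.valuation (ev h) < O.valuation (algebraMap K F z) ^ m := by
    rw [h1]
    exact mul_lt_of_lt_one_left hm hy
  have h3 := hind m h h2
  rw [h1, pow_succ'] at h3
  exact le_of_mul_le_mul_right h3 hm

/-- Adjoining a square root of a function whose order at the place is even. -/
theorem unr_sqrt (hcf : CF k K) {x : K} {s : F} (hs : s ^ 2 = algebraMap K F x)
    (hgen : IntermediateField.adjoin K {s} = ⊤) {O : ValuationSubring F} (hO : IsPlace k O)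
    (hz : ∃ z : K, O.valuation (algebraMap K F x) = O.valuation (algebraMap K F z) ^ 2) :
    ∃ z : K, Unif O (algebraMap K F z) := by
  by_cases hx : x = 0
  · -- `F = K`
    have hs0 : s = 0 := by
      rw [hx, map_zero] at hs
      exact pow_eq_zero_iff two_ne_zero |>.mp hs
    obtain ⟨π, -, hπ, -⟩ := exists_unif (F := F) hcf.ext hO
    have h1 : π ∈ IntermediateField.adjoin K {s} := by rw [hgen]; trivial
    rw [hs0, IntermediateField.adjoin_zero, IntermediateField.mem_bot] at h1
    obtain ⟨z, rfl⟩ := h1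
    exact ⟨z, hπ⟩
  obtain ⟨z, hz⟩ := hz
  have hx' : algebraMap K F x ≠ 0 := by simpa using hx
  have hz0 : z ≠ 0 := by
    rintro rfl
    rw [map_zero, map_zero, zero_pow two_ne_zero, map_eq_zero] at hz
    exact hx' hz
  have hz0' : algebraMap K F z ≠ 0 := by simpa using hz0
  have hu : O.valuation (algebraMap K F (x / z ^ 2)) = 1 := by
    rw [map_div₀, map_div₀, map_pow, map_pow, hz]
    exact div_self (pow_ne_zero _ (val_pos hz0').ne')
  have huP : x / z ^ 2 ∈ dn K O := by
    change algebraMap K F (x / z ^ 2) ∈ O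
    exact val_le_one_iff.mp hu.le
  have hs' : (s / algebraMap K F z) ^ 2 = algebraMap K F (x / z ^ 2) := by
    rw [div_pow, hs, map_div₀, map_pow]
  have hsO : s / algebraMap K F z ∈ O := by
    rw [← val_le_one_iff]
    have h1 : O.valuation (s / algebraMap K F z) ^ 2 = 1 := by rw [← map_pow, hs', hu]
    exact (pow_le_one_iff_of_nonneg zero_le two_ne_zero).mp h1.le
  have hgen' : IntermediateField.adjoin K {s / algebraMap K F z} = ⊤ := by
    rw [eq_top_iff, ← hgen, IntermediateField.adjoin_simple_le_iff]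
    have h1 : s / algebraMap K F z * algebraMap K F z = s := div_mul_cancel₀ _ hz0'
    have h2 := mul_mem (IntermediateField.mem_adjoin_simple_self K (s / algebraMap K F z))
      (IntermediateField.algebraMap_mem (IntermediateField.adjoin K {s / algebraMap K F z}) z)
    rw [h1] at h2
    exact h2
  refine unr_of_squarefree hcf hgen' hO hsO (X ^ 2 - C ⟨x / z ^ 2, huP⟩) ?_ ?_
  · rw [eval₂_sub, eval₂_pow, eval₂_X, eval₂_C, hs']
    exact sub_self _
  · rw [Polynomial.map_sub, Polynomial.map_pow, map_X, map_C]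
    refine Polynomial.Separable.squarefree ?_
    have hP : IsPlace k (dn K O) :=
      dn_place (fun a => (IsScalarTower.algebraMap_apply k K F a).symm) hO
    let ι : k →+* dn K O := (algebraMap k K).codRestrict (dn K O).toSubring hP.1
    have hch : CharZero (IsLocalRing.ResidueField (dn K O)) :=
      charZero_of_injective_ringHom
        ((IsLocalRing.residue (dn K O)).comp ι).injective
    refine Polynomial.separable_X_pow_sub_C _ ?_ ?_
    · exact_mod_cast (two_ne_zero : (2 : IsLocalRing.ResidueField (dn K O)) ≠ 0)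
    · rw [Ne, IsLocalRing.residue_eq_zero_iff, ValuationSubring.valuation_lt_one_iff]
      change ¬ (dn K O).valuation (x / z ^ 2) < 1
      rw [dn_lt_one_iff, hu]
      exact lt_irrefl _

end gen

/-- **U2.** -/
theorem stU2 : StU2 := by
  intro k K F _ _ _ _ _ _ _ _ _ hK x s hs hgen O hO hz
  obtain ⟨f, hf, hfin⟩ := hK
  exact unr_sqrt (CF.of_gen f hf hfin) hs hgen hO hz

end Pool.Agent.KS6_12.VJ
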