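import Mathlib
import Pool.Agent.KS6_16.VJ.Defs3
import Pool.Agent.KS6_77.VJ.Val
import Pool.Agent.KS6_77.TrBasis
import Pool.Agent.KS6_12.VJ.U2

/-!
# MP_e44225_nt, module EH: lemmas
-/

namespace Pool.Agent.KS6_12.VJ

open Polynomial KS6_16.VJ Pool.Agent.KS6_77.VJ

theorem exists_der' {k K : Type} [Field k] [CharZero k] [Field K] [Algebra k K]
    (hK : CF k K) (f : K) (hf : Transcendental k f) :
    ∃ D : Derivation k K K, D ≠ 0 := by
  obtain ⟨B, hB⟩ := Pool.Agent.KS6_77.exists_kaehler_basis (hK.basis f hf)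
  refine ⟨(B.coord ()).compDer (KaehlerDifferential.D k K), fun h0 => ?_⟩
  have h1 : ((B.coord ()).compDer (KaehlerDifferential.D k K)) f = 1 := by
    change B.coord () (KaehlerDifferential.D k K f) = 1
    have h2 := hB ()
    rw [← h2, Module.Basis.coord_apply, Module.Basis.repr_self, Finsupp.single_eq_same]
  rw [h0] at h1
  exact zero_ne_one h1

theorem exists_place_lt' {k F : Type} [Field k] [Field F] [Algebra k F] (t : F)
    (htr : Transcendental k t) : ∃ O : ValuationSubring F, IsPlace k O ∧ O.valuation t < 1 := by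
  have ht0 : t ≠ 0 := by
    rintro rfl
    exact htr isAlgebraic_zero
  let A : Subring F := (Algebra.adjoin k {t}).toSubring
  have htA : t ∈ A := Algebra.subset_adjoin (Set.mem_singleton t)
  let I : Ideal A := Ideal.span {⟨t, htA⟩}
  have hI : I ≠ ⊤ := by
    intro h
    rw [Ideal.eq_top_iff_one, Ideal.mem_span_singleton] at h
    obtain ⟨a, ha⟩ := h
    have ha' : (1 : F) = t * (a : F) := congrArg Subtype.val ha
    have haA : (a : F) ∈ Algebra.adjoin k {t} := a.2
    rw [Algebra.adjoin_singleton_eq_range_aeval] at haA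
    obtain ⟨p, hp⟩ := haA
    have hp' : Polynomial.aeval t p = (a : F) := hp
    refine htr ⟨Polynomial.X * p - 1, ?_, ?_⟩
    · intro h0
      have := congrArg (Polynomial.eval 0) h0
      simp at this
    · rw [map_sub, map_mul, Polynomial.aeval_X, hp', ← ha', map_one, sub_self]
  obtain ⟨O, hO, hO'⟩ := Ideal.image_subset_nonunits_valuationSubring I hI
  have htn : t ∈ O.nonunits := hO' ⟨⟨t, htA⟩, Ideal.mem_span_singleton_self _, rfl⟩
  rw [ValuationSubring.mem_nonunits_iff] at htn
  refine ⟨O, ⟨fun a => hO (Subalgebra.algebraMap_mem _ a), ?_⟩, htn⟩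
  intro htop
  have h1 : t⁻¹ ∈ O := by rw [htop]; exact ValuationSubring.mem_top _
  rw [← val_le_one_iff, map_inv₀] at h1
  exact absurd htn (not_lt_of_ge ((inv_le_one₀ (val_pos ht0)).mp h1))

/-- Derivations vanish at the constants. -/
theorem der_const {k F : Type} [Field k] [CharZero k] [Field F] [Algebra k F]
    (D : Derivation k F F) {a : F} (ha : IsAlgebraic k a) : D a = 0 := by
  have h1 : D (aeval a (minpoly k a)) = 0 := by rw [minpoly.aeval, map_zero]
  rw [D.map_aeval, smul_eq_mul] at h1
  have h2 : aeval a (derivative (minpoly k a)) ≠ 0 :=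
    (minpoly.irreducible ha.isIntegral).separable.aeval_derivative_ne_zero (minpoly.aeval k a)
  exact (mul_eq_zero.mp h1).resolve_left h2

lemma val_const {L F : Type} [Field L] [Field F] (ι : L →+* F) {O : ValuationSubring F}
    (hι : ∀ c, ι c ∈ O) {c : L} (hc : c ≠ 0) : O.valuation (ι c) = 1 := by
  refine le_antisymm (val_le_one_iff.mpr (hι c)) ?_
  have h1 := val_le_one_iff.mpr (hι c⁻¹)
  rw [map_inv₀, map_inv₀] at h1
  exact (inv_le_one₀ (val_pos (by simpa using hc))).mp h1

/-- At a place where `x` is regular the order of `x - b`, `b` a simple root of `g`, is even if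
`g(x)` is a square. -/
theorem even_order {L F : Type} [Field L] [Field F] (ι : L →+* F) {O : ValuationSubring F}
    (hι : ∀ c, ι c ∈ O) {x y : F} (hxO : x ∈ O) {g h : L[X]} {b : L} (hg : g = (X - C b) * h)
    (hb : h.eval b ≠ 0) (hy : y ^ 2 = g.eval₂ ι x) :
    ∃ z : F, O.valuation (x - ι b) = O.valuation z ^ 2 := by
  have hle : O.valuation (x - ι b) ≤ 1 := val_le_one_iff.mpr (O.sub_mem hxO (hι b))
  rcases hle.lt_or_eq with h1 | h1
  · refine ⟨y, ?_⟩
    have h2 : y ^ 2 = (x - ι b) * h.eval₂ ι x := by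
      rw [hy, hg, eval₂_mul, eval₂_sub, eval₂_X, eval₂_C]
    -- `h(x)` is a unit
    let ι' : L →+* O := ι.codRestrict O.toSubring hι
    have h3 := Polynomial.sub_dvd_eval_sub (⟨x, hxO⟩ : O) (ι' b) (h.map ι')
    obtain ⟨q, hq⟩ := h3
    have h4 : h.eval₂ ι x - ι (h.eval b) = (x - ι b) * (q : F) := by
      have h5 := congrArg (Subtype.val : O → F) hq
      have h6 : ((Polynomial.eval (⟨x, hxO⟩ : O) (h.map ι') : O) : F) = h.eval₂ ι x := by
        rw [eval_map]
        change O.subtype (eval₂ ι' (⟨x, hxO⟩ : O) h) = _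
        rw [hom_eval₂]
        rfl
      have h7 : ((Polynomial.eval (ι' b) (h.map ι') : O) : F) = ι (h.eval b) := by
        rw [eval_map, eval₂_at_apply]
        rfl
      rw [← h6, ← h7]
      exact h5
    have h5 : O.valuation (h.eval₂ ι x) = 1 := by
      have h6 : h.eval₂ ι x = ι (h.eval b) + (x - ι b) * (q : F) := by rw [← h4]; ring
      have h7 : O.valuation ((x - ι b) * (q : F)) < 1 := by
        rw [map_mul]
        exact mul_lt_one_of_lt_of_le h1 (val_le_one_iff.mpr q.2)
      have h8 := val_const ι hι hb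
      rw [h6, Valuation.map_add_eq_of_lt_left _ (by rw [h8]; exact h7), h8]
    rw [← map_pow, h2, map_mul, h5, mul_one]
  · exact ⟨1, by rw [h1, map_one, one_pow]⟩

section tower

variable {k K F' F : Type} [Field k] [Field K] [Field F'] [Field F] [Algebra k K] [Algebra K F']
  [Algebra k F'] [Algebra K F] [Algebra k F] [Algebra F' F] [IsScalarTower k K F']
  [IsScalarTower k K F] [IsScalarTower K F' F] [IsScalarTower k F' F] [FiniteDimensional F' F]

theorem unr_trans {x : K} (h1 : ∀ O : ValuationSubring F', IsPlace k O → algebraMap K F' x ∈ O →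
      ∃ z : K, Unif O (algebraMap K F' z)) {O : ValuationSubring F} (hO : IsPlace k O)
    (hxO : algebraMap K F x ∈ O) (h2 : ∃ z' : F', Unif O (algebraMap F' F z')) :
    ∃ z : K, Unif O (algebraMap K F z) := by
  obtain ⟨z', hz'⟩ := h2
  have hO' : IsPlace k (dn F' O) :=
    dn_place (fun a => (IsScalarTower.algebraMap_apply k F' F a).symm) hO
  obtain ⟨z, hz⟩ := h1 _ hO' (by
    change algebraMap F' F (algebraMap K F' x) ∈ O
    rwa [← IsScalarTower.algebraMap_apply K F' F])
  refine ⟨z, ?_⟩
  have h3 := unif_val_eq hz (unif_dn hz')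
  rw [dn_eq_iff, ← IsScalarTower.algebraMap_apply K F' F] at h3
  intro y
  rw [h3]
  exact hz' y

end tower

/-- Adjoining a root of a polynomial. -/
theorem ext_zero {k K : Type} [Field k] [Field K] [Algebra k K] (f : K[X]) (hf : f.natDegree ≠ 0) :
    ∃ (F : Type) (_ : Field F) (_ : Algebra K F) (_ : Algebra k F) (_ : IsScalarTower k K F)
      (_ : FiniteDimensional K F) (e : F), aeval e f = 0 ∧
      IntermediateField.adjoin K {e} = ⊤ := by
  let p := f.factor
  have hp : Irreducible p := Polynomial.irreducible_factor f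
  have : Fact (Irreducible p) := ⟨hp⟩
  have hp0 : p ≠ 0 := hp.ne_zero
  have hfin : FiniteDimensional K (AdjoinRoot p) := (AdjoinRoot.powerBasis hp0).finite
  refine ⟨AdjoinRoot p, inferInstance, inferInstance, inferInstance, inferInstance, hfin,
    AdjoinRoot.root p, ?_, ?_⟩
  · rw [AdjoinRoot.aeval_eq, AdjoinRoot.mk_eq_zero]
    exact Polynomial.factor_dvd_of_natDegree_ne_zero hf
  · rw [eq_top_iff]
    intro y _
    have h1 : y ∈ Algebra.adjoin K {AdjoinRoot.root p} := by
      rw [AdjoinRoot.adjoinRoot_eq_top]; trivial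
    exact IntermediateField.algebra_adjoin_le_adjoin K _ h1

/-- Adjoining a root of a polynomial to an extension. -/
theorem ext_step {k K F' : Type} [Field k] [Field K] [Field F'] [Algebra k K] [Algebra K F']
    [Algebra k F'] [IsScalarTower k K F'] [FiniteDimensional K F'] (f : F'[X])
    (hf : f.natDegree ≠ 0) :
    ∃ (F : Type) (_ : Field F) (_ : Algebra K F) (_ : Algebra k F) (_ : IsScalarTower k K F)
      (_ : FiniteDimensional K F) (_ : Algebra F' F) (_ : IsScalarTower K F' F)
      (_ : IsScalarTower k F' F) (_ : FiniteDimensional F' F) (e : F), aeval e f = 0 ∧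
      IntermediateField.adjoin F' {e} = ⊤ := by
  obtain ⟨F, _, _, _, _, _, e, he, hgen⟩ := ext_zero (k := K) f hf
  let i2 : Algebra k F := ((algebraMap K F).comp (algebraMap k K)).toAlgebra
  have t1 : IsScalarTower k K F := IsScalarTower.of_algebraMap_eq fun _ => rfl
  have t2 : IsScalarTower K F' F := inferInstance
  have t3 : IsScalarTower k F' F := IsScalarTower.of_algebraMap_eq fun a => by
    rw [IsScalarTower.algebraMap_apply k K F', ← IsScalarTower.algebraMap_apply K F' F]
    rfl
  have f1 : FiniteDimensional K F := FiniteDimensional.trans K F' F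
  exact ⟨F, _, _, i2, t1, f1, _, t2, t3, inferInstance, e, he, hgen⟩

end Pool.Agent.KS6_12.VJ
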