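import Mathlib
import Pool.Agent.KS6_12.VJ.EH1

/-!
# MP_e44225_nt, module EH: hyperelliptic curves and everything above them

`F = K(a₁, a₂, a₃, s₁, s₂)`, where the `aᵢ` are roots of `g` and `sᵢ ^ 2 = x - aᵢ`; `t = s₁ + s₂` has
zeros and poles over the poles of `x` only since `(s₁ + s₂) (s₁ - s₂) = a₂ - a₁`, and it is ramified
over `x = a₃`.
-/

namespace Pool.Agent.KS6_12.VJ

open Polynomial KS6_16.VJ Pool.Agent.KS6_77.VJ

lemma sq_mem {F : Type} [Field F] {O : ValuationSubring F} {s : F} (h : s ^ 2 ∈ O) : s ∈ O := by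
  rw [← val_le_one_iff, map_pow] at h
  rw [← val_le_one_iff]
  exact (pow_le_one_iff_of_nonneg zero_le two_ne_zero).mp h

section top

variable {k K F L : Type} [Field k] [CharZero k] [Field K] [Field F] [Field L] [Algebra k K]
  [Algebra K F] [Algebra k F] [IsScalarTower k K F] [FiniteDimensional K F] [Algebra k L]
  [Algebra.IsAlgebraic k L]

omit [CharZero k] in
lemma const_mem (ι : L →ₐ[k] F) {O : ValuationSubring F} (hO : IsPlace k O) (c : L) :
    ι c ∈ O :=
  mem_of_isIntegral (R := k) O hO.1 ((Algebra.IsIntegral.isIntegral (R := k) c).map ι)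

theorem top_case (hcf : CF k K) {x : K} (hx : Transcendental k x) (ι : L →ₐ[k] F) {b₁ b₂ b₃ : L}
    (h12 : b₁ ≠ b₂) (h13 : b₁ ≠ b₃) (h23 : b₂ ≠ b₃)
    (heven : ∀ O : ValuationSubring F, IsPlace k O → algebraMap K F x ∈ O →
      ∃ z : F, O.valuation (algebraMap K F x - ι b₃) = O.valuation z ^ 2)
    {S₁ S₂ : F} (hS₁ : S₁ ^ 2 = algebraMap K F x - ι b₁) (hS₂ : S₂ ^ 2 = algebraMap K F x - ι b₂)
    (hunr : ∀ O : ValuationSubring F, IsPlace k O → algebraMap K F x ∈ O →
      ∃ z : K, Unif O (algebraMap K F z))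
    {𝒟 : Set (ValuationSubring K)} (h𝒟 : ∀ P, IsPlace k P → x ∉ P → P ∈ 𝒟) :
    Cover k 𝒟 (S₁ + S₂) ∧ Hyp k 𝒟 (S₁ + S₂) := by
  have hcF : CF k F := hcf.ext
  have hcF0 : CharZero F := charZero_of_injective_algebraMap (algebraMap k F).injective
  set X' : F := algebraMap K F x with hX'
  have hXt : Transcendental k X' := by
    rw [hX']
    exact (transcendental_algebraMap_iff (algebraMap K F).injective).mpr hx
  have hinj : Function.Injective ι := ι.toRingHom.injective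
  have hδ : ι b₂ - ι b₁ ≠ 0 := sub_ne_zero.mpr fun h => h12 (hinj h).symm
  have hprod : (S₁ + S₂) * (S₁ - S₂) = ι b₂ - ι b₁ := by
    linear_combination hS₁ - hS₂
  have ht0 : S₁ + S₂ ≠ 0 := by
    intro h0
    rw [h0, zero_mul] at hprod
    exact hδ hprod.symm
  have hinv : (S₁ + S₂)⁻¹ = (S₁ - S₂) * (ι b₂ - ι b₁)⁻¹ := by
    rw [← hprod, mul_inv, mul_comm (S₁ + S₂)⁻¹, ← mul_assoc, mul_inv_cancel₀, one_mul]
    intro h0
    rw [h0, mul_zero] at hprod
    exact hδ hprod.symm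
  have hS₁' : S₁ = (S₁ + S₂ + (ι b₂ - ι b₁) * (S₁ + S₂)⁻¹) * (ι 2)⁻¹ := by
    have h2 : ι (2 : L) = 2 := map_ofNat ι 2
    have h3 : (ι b₂ - ι b₁) * (S₁ + S₂)⁻¹ = S₁ - S₂ := by
      rw [← hprod, mul_comm (S₁ + S₂), mul_assoc, mul_inv_cancel₀ ht0, mul_one]
    rw [h2, h3]
    field_simp
    ring
  have hιalg : ∀ c : L, IsAlgebraic k (ι c) := fun c =>
    ((Algebra.IsIntegral.isIntegral (R := k) c).map ι).isAlgebraic
  -- `t` is transcendental
  have htt : Transcendental k (S₁ + S₂) := by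
    intro halg
    have h1 : IsAlgebraic k S₁ := by
      rw [hS₁']
      exact (halg.add ((hιalg b₂).sub (hιalg b₁) |>.mul halg.inv)).mul (hιalg 2).inv
    refine hXt ?_
    have h2 : X' = S₁ ^ 2 + ι b₁ := by rw [hS₁]; ring
    rw [h2]
    exact (h1.pow 2).add (hιalg b₁)
  -- `t` is a unit exactly where `x` is regular
  have hA : ∀ O : ValuationSubring F, IsPlace k O → X' ∈ O →
      S₁ ∈ O ∧ S₂ ∈ O ∧ S₁ + S₂ ∈ O ∧ (S₁ + S₂)⁻¹ ∈ O := by
    intro O hO hXO
    have h1 : S₁ ∈ O := sq_mem (by rw [hS₁]; exact O.sub_mem hXO (const_mem ι hO b₁))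
    have h2 : S₂ ∈ O := sq_mem (by rw [hS₂]; exact O.sub_mem hXO (const_mem ι hO b₂))
    refine ⟨h1, h2, O.add_mem _ _ h1 h2, ?_⟩
    rw [hinv]
    refine O.mul_mem _ _ (O.sub_mem h1 h2) ?_
    rw [← map_sub, ← map_inv₀]
    exact const_mem ι hO _
  have hB : ∀ O : ValuationSubring F, IsPlace k O → S₁ + S₂ ∈ O → (S₁ + S₂)⁻¹ ∈ O → X' ∈ O := by
    intro O hO h1 h2
    have h3 : S₁ ∈ O := by
      rw [hS₁']
      refine O.mul_mem _ _ (O.add_mem _ _ h1 (O.mul_mem _ _ ?_ h2)) ?_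
      · exact O.sub_mem (const_mem ι hO _) (const_mem ι hO _)
      · rw [← map_inv₀]
        exact const_mem ι hO _
    have h4 : X' = S₁ ^ 2 + ι b₁ := by rw [hS₁]; ring
    rw [h4]
    exact O.add_mem _ _ (O.pow_mem h3 2) (const_mem ι hO _)
  refine ⟨⟨htt, fun O hO => ⟨fun h => ?_, fun h1 h2 => hunr O hO (hB O hO h1 h2)⟩⟩, ?_⟩
  · refine h𝒟 _ (dn_place (fun a => (IsScalarTower.algebraMap_apply k K F a).symm) hO) ?_
    intro hxP
    have hXO : X' ∈ O := hxP
    obtain ⟨-, -, h3, h4⟩ := hA O hO hXO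
    rcases h with h | h
    · exact h h3
    · exact h h4
  -- the ramification point
  have hW : Transcendental k (X' - ι b₃) := by
    intro halg
    refine hXt ?_
    have h2 : X' = (X' - ι b₃) + ι b₃ := by ring
    rw [h2]
    exact halg.add (hιalg b₃)
  obtain ⟨O, hO, hlt⟩ := exists_place_lt' _ hW
  have hXO : X' ∈ O := by
    have h2 : X' = (X' - ι b₃) + ι b₃ := by ring
    rw [h2]
    exact O.add_mem _ _ (val_le_one_iff.mp hlt.le) (const_mem ι hO _)
  obtain ⟨hS₁O, hS₂O, htO, htO'⟩ := hA O hO hXO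
  refine ⟨O, hO, htO, htO', Or.inr fun p hp => ?_⟩
  set π : F := aeval (S₁ + S₂) p with hπ
  have hιO : ∀ c, (ι : L →+* F) c ∈ O := fun c => const_mem ι hO c
  -- the order of `x - a₃` is at least two
  have hW2 : O.valuation (X' - ι b₃) ≤ O.valuation π * O.valuation π := by
    obtain ⟨z, hz⟩ := heven O hO hXO
    rw [hz] at hlt ⊢
    have h1 : O.valuation z < 1 := by
      by_contra hcon
      exact absurd hlt (not_lt_of_ge (one_le_pow₀ (not_lt.mp hcon)))
    have h2 := (hp z).mp h1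
    rw [sq]
    exact mul_le_mul' h2 h2
  -- `s₁`, `s₂` are units
  have hS₁v : O.valuation S₁ = 1 := by
    have h1 : O.valuation (S₁ ^ 2) = 1 := by
      have h2 : S₁ ^ 2 = ι (b₃ - b₁) + (X' - ι b₃) := by rw [hS₁, map_sub]; ring
      have h3 : O.valuation (ι (b₃ - b₁)) = 1 :=
        val_const (ι : L →+* F) hιO (sub_ne_zero.mpr h13.symm)
      rw [h2, Valuation.map_add_eq_of_lt_left _ (by rw [h3]; exact hlt), h3]
    rw [map_pow] at h1
    exact (pow_eq_one_iff_of_nonneg zero_le two_ne_zero).mp h1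
  have hS₂v : O.valuation S₂ = 1 := by
    have h1 : O.valuation (S₂ ^ 2) = 1 := by
      have h2 : S₂ ^ 2 = ι (b₃ - b₂) + (X' - ι b₃) := by rw [hS₂, map_sub]; ring
      have h3 : O.valuation (ι (b₃ - b₂)) = 1 :=
        val_const (ι : L →+* F) hιO (sub_ne_zero.mpr h23.symm)
      rw [h2, Valuation.map_add_eq_of_lt_left _ (by rw [h3]; exact hlt), h3]
    rw [map_pow] at h1
    exact (pow_eq_one_iff_of_nonneg zero_le two_ne_zero).mp h1
  -- derivations
  obtain ⟨D, hD⟩ := exists_der' hcF X' hXt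
  have hπ0 : O.valuation (D π) ≠ 0 := by
    rw [Ne, map_eq_zero]
    exact der_unif_ne hcF hO hD hp
  have hDX : D X' = D (X' - ι b₃) := by rw [map_sub, der_const D (hιalg b₃), sub_zero]
  have hWne : X' - ι b₃ ≠ 0 := by
    intro h0
    rw [h0] at hW
    exact hW isAlgebraic_zero
  have hdl := der_dlog hcF hO hD hp hWne hlt.ne
  have hπpos : O.valuation π ≠ 0 := by
    rw [Ne, map_eq_zero]
    exact unif_ne_zero hO.2 hp
  have hDXle : O.valuation (D X') ≤ O.valuation π * O.valuation (D π) := by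
    rw [hDX]
    have h1 : O.valuation (D (X' - ι b₃)) * O.valuation π ≤
        (O.valuation π * O.valuation (D π)) * O.valuation π := by
      rw [hdl]
      calc O.valuation (X' - ι b₃) * O.valuation (D π) ≤
          (O.valuation π * O.valuation π) * O.valuation (D π) := mul_le_mul' hW2 le_rfl
        _ = _ := by ac_rfl
    exact le_of_mul_le_mul_right h1 (zero_lt_iff.mpr hπpos)
  have hDX' : O.valuation (D X') < O.valuation (D π) := by
    refine lt_of_le_of_lt hDXle ?_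
    exact mul_lt_of_lt_one_left (zero_lt_iff.mpr hπ0) (unif_lt_one hp)
  have h2v : O.valuation (2 : F) = 1 := by
    have h1 : (2 : F) = (ι : L →+* F) (2 : L) := (map_ofNat (ι : L →+* F) 2).symm
    have hL : CharZero L := charZero_of_injective_algebraMap (algebraMap k L).injective
    rw [h1]
    exact val_const (ι : L →+* F) hιO two_ne_zero
  have hDS : ∀ (S : F) (b : L), S ^ 2 = X' - ι b → O.valuation S = 1 →
      O.valuation (D S) = O.valuation (D X') := by
    intro S b hS hSv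
    have h1 : 2 * S * D S = D X' := by
      have h2 := congrArg D hS
      rw [map_sub, der_const D (hιalg b), sub_zero, D.leibniz_pow] at h2
      rw [← h2]
      simp only [smul_eq_mul, nsmul_eq_mul]
      norm_num
      ring
    rw [← h1, map_mul, map_mul, h2v, hSv, one_mul, one_mul]
  have hDt : O.valuation (D (S₁ + S₂)) ≤ O.valuation (D X') := by
    rw [map_add]
    refine (Valuation.map_add _ _ _).trans ?_
    rw [hDS S₁ b₁ hS₁ hS₁v, hDS S₂ b₂ hS₂ hS₂v, max_self]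
  have hDπ : O.valuation (D π) ≤ O.valuation (D (S₁ + S₂)) := by
    rw [hπ, D.map_aeval, smul_eq_mul, map_mul]
    exact mul_le_of_le_one_left' (val_le_one_iff.mpr (poly_mem hO.1 htO _))
  exact absurd (lt_of_le_of_lt (hDπ.trans hDt) hDX') (lt_irrefl _)

end top

lemma exists_factor {L : Type} [Field L] {g : L[X]} (hsep : g.Separable) {b : L}
    (hb : g.eval b = 0) : ∃ h : L[X], g = (X - C b) * h ∧ h.eval b ≠ 0 := by
  obtain ⟨h, hh⟩ := dvd_iff_isRoot.mpr (show g.IsRoot b from hb)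
  refine ⟨h, hh, fun h0 => ?_⟩
  have h1 := hsep.eval₂_derivative_ne_zero (RingHom.id L) (x := b) (by
    change eval₂ (RingHom.id L) b g = 0
    rw [eval₂_id]; exact hb)
  apply h1
  rw [eval₂_id, hh, derivative_mul, derivative_sub, derivative_X, derivative_C, sub_zero, one_mul,
    eval_add, eval_mul, h0, eval_sub, eval_X, eval_C, sub_self, zero_mul, add_zero]

/-- The order of `x - b` is even in every extension. -/
lemma even_all {k K F L : Type} [Field k] [CharZero k] [Field K] [Field F] [Field L] [Algebra k K]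
    [Algebra K F] [Algebra k F] [IsScalarTower k K F] [Algebra k L] [Algebra.IsAlgebraic k L]
    {x y : K} {g : k[X]} (hsep : g.Separable) (hy : y ^ 2 = aeval x g) (ι : L →ₐ[k] F) {b : L}
    (hb : aeval b g = 0) {O : ValuationSubring F} (hO : IsPlace k O)
    (hxO : algebraMap K F x ∈ O) :
    ∃ z : F, O.valuation (algebraMap K F x - ι b) = O.valuation z ^ 2 := by
  obtain ⟨h, hh, hhb⟩ := exists_factor (g := g.map (algebraMap k L)) (hsep.map) (b := b) (by
    rw [eval_map, ← aeval_def]; exact hb)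
  refine even_order (ι : L →+* F) (fun c => const_mem ι hO c) hxO hh hhb
    (y := algebraMap K F y) ?_
  rw [← map_pow, hy, ← aeval_algebraMap_apply, eval₂_map, aeval_def]
  congr 1
  ext c
  simp

/-- **EH.** -/
theorem stEH : StEH := by
  intro k K _ _ _ _ hK x y g hx hsep _ h3 hy 𝒟 h𝒟
  have hK' := hK
  obtain ⟨f, hf, hfin⟩ := hK
  have hcf : CF k K := CF.of_gen f hf hfin
  -- the roots
  have hcL : CharZero g.SplittingField :=
    charZero_of_injective_algebraMap (algebraMap k g.SplittingField).injective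
  obtain ⟨b₁, b₂, b₃, hb₁, hb₂, hb₃, h12, h13, h23⟩ : ∃ b₁ b₂ b₃ : g.SplittingField,
      aeval b₁ g = 0 ∧ aeval b₂ g = 0 ∧ aeval b₃ g = 0 ∧ b₁ ≠ b₂ ∧ b₁ ≠ b₃ ∧ b₂ ≠ b₃ := by
    classical
    have h1 := card_rootSet_eq_natDegree hsep (SplittingField.splits g)
    have h2 : 2 < (g.rootSet g.SplittingField).toFinset.card := by
      rw [Set.toFinset_card, h1]
      omega
    obtain ⟨b₁, hb₁, b₂, hb₂, b₃, hb₃, h12, h13, h23⟩ := Finset.two_lt_card.mp h2
    rw [Set.mem_toFinset] at hb₁ hb₂ hb₃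
    exact ⟨b₁, b₂, b₃, (mem_rootSet.mp hb₁).2, (mem_rootSet.mp hb₂).2, (mem_rootSet.mp hb₃).2,
      h12, h13, h23⟩
  -- the constants
  let pb : PowerBasis k g.SplittingField := Field.powerBasisOfFiniteOfSeparable k g.SplittingField
  have hint : IsIntegral k pb.gen := Algebra.IsIntegral.isIntegral _
  obtain ⟨F₁, _, _, _, _, _, e, he, hgen⟩ := ext_zero (k := k)
    ((minpoly k pb.gen).map (algebraMap k K)) (by
      rw [natDegree_map]
      exact (minpoly.natDegree_pos hint).ne')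
  rw [aeval_map_algebraMap] at he
  let ι₁ : g.SplittingField →ₐ[k] F₁ := pb.lift e he
  have hea : IsAlgebraic k e := ⟨minpoly k pb.gen, minpoly.ne_zero hint, he⟩
  have hu₁ : ∀ O : ValuationSubring F₁, IsPlace k O → algebraMap K F₁ x ∈ O →
      ∃ z : K, Unif O (algebraMap K F₁ z) := fun O hO _ => stU1 k K F₁ hK' e hea hgen O hO
  have hcf₁ : CF k F₁ := hcf.ext
  -- the first square root
  obtain ⟨F₂, _, _, _, _, _, _, _, _, _, s₁, hs₁, hgen₁⟩ := ext_step (k := k) (K := K)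
    (X ^ 2 - C (algebraMap K F₁ x - ι₁ b₁)) (by rw [natDegree_X_pow_sub_C]; norm_num)
  have hs₁' : s₁ ^ 2 = algebraMap F₁ F₂ (algebraMap K F₁ x - ι₁ b₁) := by
    rw [map_sub, map_pow, aeval_X, aeval_C, sub_eq_zero] at hs₁
    exact hs₁
  let ι₂ : g.SplittingField →ₐ[k] F₂ := (IsScalarTower.toAlgHom k F₁ F₂).comp ι₁
  have hι₂ : ∀ c, ι₂ c = algebraMap F₁ F₂ (ι₁ c) := fun _ => rfl
  have hu₂ : ∀ O : ValuationSubring F₂, IsPlace k O → algebraMap K F₂ x ∈ O →
      ∃ z : K, Unif O (algebraMap K F₂ z) := by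
    intro O hO hxO
    refine unr_trans (F' := F₁) hu₁ hO hxO (unr_sqrt hcf₁ hs₁' hgen₁ hO ?_)
    obtain ⟨z, hz⟩ := even_all hsep hy ι₁ hb₁ (O := dn F₁ O)
      (dn_place (fun a => (IsScalarTower.algebraMap_apply k F₁ F₂ a).symm) hO) (by
        change algebraMap F₁ F₂ (algebraMap K F₁ x) ∈ O
        rwa [← IsScalarTower.algebraMap_apply K F₁ F₂])
    rw [← map_pow, dn_eq_iff, map_pow, map_pow] at hz
    exact ⟨z, hz⟩
  have hcf₂ : CF k F₂ := hcf.ext
  -- the second square root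
  obtain ⟨F₃, _, _, _, _, _, _, _, _, _, s₂, hs₂, hgen₂⟩ := ext_step (k := k) (K := K)
    (X ^ 2 - C (algebraMap K F₂ x - ι₂ b₂)) (by rw [natDegree_X_pow_sub_C]; norm_num)
  have hs₂' : s₂ ^ 2 = algebraMap F₂ F₃ (algebraMap K F₂ x - ι₂ b₂) := by
    rw [map_sub, map_pow, aeval_X, aeval_C, sub_eq_zero] at hs₂
    exact hs₂
  let ι₃ : g.SplittingField →ₐ[k] F₃ := (IsScalarTower.toAlgHom k F₂ F₃).comp ι₂
  have hι₃ : ∀ c, ι₃ c = algebraMap F₂ F₃ (ι₂ c) := fun _ => rfl
  have hu₃ : ∀ O : ValuationSubring F₃, IsPlace k O → algebraMap K F₃ x ∈ O →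
      ∃ z : K, Unif O (algebraMap K F₃ z) := by
    intro O hO hxO
    refine unr_trans (F' := F₂) hu₂ hO hxO (unr_sqrt hcf₂ hs₂' hgen₂ hO ?_)
    obtain ⟨z, hz⟩ := even_all hsep hy ι₂ hb₂ (O := dn F₂ O)
      (dn_place (fun a => (IsScalarTower.algebraMap_apply k F₂ F₃ a).symm) hO) (by
        change algebraMap F₂ F₃ (algebraMap K F₂ x) ∈ O
        rwa [← IsScalarTower.algebraMap_apply K F₂ F₃])
    rw [← map_pow, dn_eq_iff, map_pow, map_pow] at hz
    exact ⟨z, hz⟩
  have hS₁ : (algebraMap F₂ F₃ s₁) ^ 2 = algebraMap K F₃ x - ι₃ b₁ := by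
    rw [← map_pow, hs₁', map_sub, map_sub, hι₃, hι₂, ← IsScalarTower.algebraMap_apply K F₁ F₂,
      ← IsScalarTower.algebraMap_apply K F₂ F₃]
  have hS₂ : s₂ ^ 2 = algebraMap K F₃ x - ι₃ b₂ := by
    rw [hs₂', map_sub, hι₃, ← IsScalarTower.algebraMap_apply K F₂ F₃]
  have h := top_case hcf hx ι₃ h12 h13 h23 (fun O hO hxO => even_all hsep hy ι₃ hb₃ hO hxO)
    hS₁ hS₂ hu₃ h𝒟
  exact ⟨F₃, inferInstance, inferInstance, inferInstance, inferInstance, inferInstance, _, h⟩

end Pool.Agent.KS6_12.VJ
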